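import Pool.Agent.helper18.KU.Spec

/-!
# Project ku, module IN2: insertion of a vertex of degree 5 with one root edge
-/

set_option autoImplicit false

namespace Pool.Agent.KU

open Finset

noncomputable section

variable {V : Type} [DecidableEq V]

theorem IN2_cnt (u a c : V) (k1 k2 : ZMod 3) (hne : (a, k1) ≠ (c, k2)) (P : ZMod 3 → Prop)
    [DecidablePred P] :
    (univ.filter fun k : ZMod 3 => (u, k) ∈ ({(a, k1), (c, k2)} : Finset (V × ZMod 3)) ∧ P k).card =
      (if u = a ∧ P k1 then 1 else 0) + (if u = c ∧ P k2 then 1 else 0) := by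
  rw [Finset.card_filter]
  have h1 : ∀ k : ZMod 3,
      (if (u, k) ∈ ({(a, k1), (c, k2)} : Finset (V × ZMod 3)) ∧ P k then 1 else 0) =
      (if k = k1 then (if u = a ∧ P k1 then 1 else 0) else 0) +
      (if k = k2 then (if u = c ∧ P k2 then 1 else 0) else 0) := by
    intro k
    simp only [mem_insert, mem_singleton, Prod.mk.injEq]
    by_cases e1 : k = k1
    · subst e1
      by_cases e2 : k = k2
      · subst e2
        have hac : a ≠ c := fun h => hne (by rw [h])
        by_cases e3 : u = a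
        · subst e3
          by_cases e4 : P k <;> simp [e4, hac]
        · by_cases e5 : u = c
          · subst e5
            by_cases e4 : P k <;> simp [e3, e4]
          · simp [e3, e5]
      · by_cases e4 : P k <;> simp [e2, e4]
    · by_cases e2 : k = k2
      · subst e2
        by_cases e4 : P k <;> simp [e1, e4]
      · simp [e1, e2]
  rw [Finset.sum_congr rfl fun k _ => h1 k, Finset.sum_add_distrib]
  simp

theorem IN2_cnt' (u a c : V) (k1 k2 : ZMod 3) (hne : (a, k1) ≠ (c, k2)) :
    (univ.filter fun k : ZMod 3 => (u, k) ∈ ({(a, k1), (c, k2)} : Finset (V × ZMod 3))).card =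
      (if u = a then 1 else 0) + (if u = c then 1 else 0) := by
  have h := IN2_cnt u a c k1 k2 hne (fun _ => True)
  simpa using h

theorem IN2_split (R : Finset (V × ZMod 3)) (u : V) (P : ZMod 3 → Prop) [DecidablePred P] :
    (univ.filter fun k : ZMod 3 => P k).card =
      (univ.filter fun k : ZMod 3 => (u, k) ∉ R ∧ P k).card +
      (univ.filter fun k : ZMod 3 => (u, k) ∈ R ∧ P k).card := by
  rw [Finset.card_filter, Finset.card_filter, Finset.card_filter, ← Finset.sum_add_distrib]
  refine Finset.sum_congr rfl fun k _ => ?_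
  by_cases h1 : (u, k) ∈ R <;> by_cases h2 : P k <;> simp [h1, h2]

theorem IN2_core (hGEN : GEN_stmt) (hDIS : DIS_stmt) (hINS : INS_stmt) (S : Finset V) (X : V → ℕ)
    (w : V → V → ℕ) (v a b c d : V) (hv : v ∉ S) (hw : Sy w) (ha : a ∈ S) (hb : b ∈ S) (hc : c ∈ S)
    (hd : d ∈ S) (hab : a ≠ b) (hcd : c ≠ d) (hX : X v = 1)
    (hvu : ∀ u ∈ S, w v u = (if u = a then 1 else 0) + (if u = b then 1 else 0) +
      (if u = c then 1 else 0) + (if u = d then 1 else 0))
    (h : V → ZMod 3 → Option V) (φ : V → ℝ) (hS : Static S X (addE (addE w a b) c d) h φ)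
    (K1 K2 m : ℤ) (h1 : h a (K1 : ZMod 3) = some b) (h2 : h c (K2 : ZMod 3) = some d)
    (hne : (a, (K1 : ZMod 3)) ≠ (c, (K2 : ZMod 3)))
    (d1 : 1 < (φ c + K2) - (φ a + K1) - 3 * m) (d2 : (φ c + K2) - (φ a + K1) - 3 * m < 3) :
    St (insert v S) X w := by
  set δ : ℝ := (φ c + K2) - (φ a + K1) - 3 * m with hδ
  obtain ⟨s, hs1, hs2, hs3⟩ := hGEN (S.image φ) (φ a + K1 + max 0 (δ - 2))
    (φ a + K1 + min 1 (δ - 1)) (by
      have : max 0 (δ - 2) < min 1 (δ - 1) := by
        rw [max_lt_iff, lt_min_iff, lt_min_iff]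
        exact ⟨⟨by norm_num, by linarith⟩, ⟨by linarith, by linarith⟩⟩
      linarith)
  have x1 : φ a + K1 < s := by
    have := le_max_left (0 : ℝ) (δ - 2)
    linarith
  have x2 : φ a + K1 + (δ - 2) < s := by
    have := le_max_right (0 : ℝ) (δ - 2)
    linarith
  have x3 : s < φ a + K1 + 1 := by
    have := min_le_left (1 : ℝ) (δ - 1)
    linarith
  have x4 : s < φ a + K1 + (δ - 1) := by
    have := min_le_right (1 : ℝ) (δ - 1)
    linarith
  let g : ZMod 3 → Option V := fun k => if k = 0 then some b else if k = 1 then some d else none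
  have g0 : g 0 = some b := by simp [g]
  have g1 : g 1 = some d := by
    have : (1 : ZMod 3) ≠ 0 := by decide
    simp [g]
  have g2 : g 2 = none := by
    have h20 : (2 : ZMod 3) ≠ 0 := by decide
    have h21 : (2 : ZMod 3) ≠ 1 := by decide
    simp [g, h20, h21]
  have hk : ∀ k : ZMod 3, k = 0 ∨ k = 1 ∨ k = 2 := by decide
  refine hINS V S X X (addE (addE w a b) c d) w h φ v {(a, (K1 : ZMod 3)), (c, (K2 : ZMod 3))} g s
    hv hw hS ?_ ?_ ?_ ?_ ?_ ?_ ?_ ?_
  · intro r hr
    rw [mem_insert, mem_singleton] at hr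
    rcases hr with rfl | rfl
    · exact ha
    · exact hc
  · intro k z hz
    rcases hk k with rfl | rfl | rfl
    · rw [g0] at hz
      rw [← Option.some.inj hz]
      exact hb
    · rw [g1] at hz
      rw [← Option.some.inj hz]
      exact hd
    · rw [g2] at hz
      exact absurd hz (by simp)
  · intro u hu n
    exact hs3 (φ u) (mem_image_of_mem φ hu) n
  · intro t
    rcases hk ((⌊t - s⌋ : ℤ) : ZMod 3) with h0 | h0 | h0
    · right
      intro r hr hact
      rw [h0, g0]
      rw [mem_insert, mem_singleton] at hr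
      rcases hr with rfl | rfl
      · exact h1
      · exfalso
        refine hDIS s (φ c) 0 K2 (m + 1) ?_ ?_ t ⟨by rw [h0]; simp, hact⟩
        · push_cast
          linarith
        · push_cast
          linarith
    · right
      intro r hr hact
      rw [h0, g1]
      rw [mem_insert, mem_singleton] at hr
      rcases hr with rfl | rfl
      · exfalso
        refine hDIS s (φ a) 1 K1 0 ?_ ?_ t ⟨by rw [h0]; simp, hact⟩
        · push_cast
          linarith
        · push_cast
          linarith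
      · exact h2
    · left
      rw [h0, g2]
  · intro u hu
    have e1 := IN2_split {(a, (K1 : ZMod 3)), (c, (K2 : ZMod 3))} u (fun k => h u k = none)
    have e2 := IN2_cnt u a c K1 K2 hne (fun k => h u k = none)
    have e3 := hS.cX u hu
    have e4 : ¬ (u = a ∧ h u (K1 : ZMod 3) = none) := by
      rintro ⟨rfl, h3⟩
      rw [h1] at h3
      exact absurd h3 (by simp)
    have e5 : ¬ (u = c ∧ h u (K2 : ZMod 3) = none) := by
      rintro ⟨rfl, h3⟩
      rw [h2] at h3
      exact absurd h3 (by simp)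
    rw [if_neg e4, if_neg e5] at e2
    omega
  · intro u hu z hz huz
    have e1 := IN2_split {(a, (K1 : ZMod 3)), (c, (K2 : ZMod 3))} u (fun k => h u k = some z)
    have e2 := IN2_cnt u a c K1 K2 hne (fun k => h u k = some z)
    have e1' := IN2_split {(a, (K1 : ZMod 3)), (c, (K2 : ZMod 3))} z (fun k => h z k = some u)
    have e2' := IN2_cnt z a c K1 K2 hne (fun k => h z k = some u)
    have e3 := hS.cw u hu z hz huz
    have p1 : (u = a ∧ h u (K1 : ZMod 3) = some z) ↔ (u = a ∧ z = b) := by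
      constructor
      · rintro ⟨rfl, h3⟩
        rw [h1] at h3
        exact ⟨rfl, (Option.some.inj h3).symm⟩
      · rintro ⟨rfl, rfl⟩
        exact ⟨rfl, h1⟩
    have p2 : (u = c ∧ h u (K2 : ZMod 3) = some z) ↔ (u = c ∧ z = d) := by
      constructor
      · rintro ⟨rfl, h3⟩
        rw [h2] at h3
        exact ⟨rfl, (Option.some.inj h3).symm⟩
      · rintro ⟨rfl, rfl⟩
        exact ⟨rfl, h2⟩
    have p3 : (z = a ∧ h z (K1 : ZMod 3) = some u) ↔ (z = a ∧ u = b) := by
      constructor
      · rintro ⟨rfl, h3⟩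
        rw [h1] at h3
        exact ⟨rfl, (Option.some.inj h3).symm⟩
      · rintro ⟨rfl, rfl⟩
        exact ⟨rfl, h1⟩
    have p4 : (z = c ∧ h z (K2 : ZMod 3) = some u) ↔ (z = c ∧ u = d) := by
      constructor
      · rintro ⟨rfl, h3⟩
        rw [h2] at h3
        exact ⟨rfl, (Option.some.inj h3).symm⟩
      · rintro ⟨rfl, rfl⟩
        exact ⟨rfl, h2⟩
    simp only [p1, p2] at e2
    simp only [p3, p4] at e2'
    have q1 : (if (u = a ∧ z = b) ∨ (u = b ∧ z = a) then 1 else 0) =
        (if u = a ∧ z = b then 1 else 0) + (if z = a ∧ u = b then 1 else 0) := by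
      by_cases r1 : u = a ∧ z = b
      · have r2 : ¬ (z = a ∧ u = b) := by
          rintro ⟨h3, h4⟩
          exact hab (r1.1.symm.trans h4)
        rw [if_pos (Or.inl r1), if_pos r1, if_neg r2]
      · by_cases r2 : z = a ∧ u = b
        · rw [if_pos (Or.inr ⟨r2.2, r2.1⟩), if_neg r1, if_pos r2]
        · rw [if_neg r1, if_neg r2, if_neg]
          rintro (h3 | h3)
          · exact r1 h3
          · exact r2 ⟨h3.2, h3.1⟩
    have q2 : (if (u = c ∧ z = d) ∨ (u = d ∧ z = c) then 1 else 0) =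
        (if u = c ∧ z = d then 1 else 0) + (if z = c ∧ u = d then 1 else 0) := by
      by_cases r1 : u = c ∧ z = d
      · have r2 : ¬ (z = c ∧ u = d) := by
          rintro ⟨h3, h4⟩
          exact hcd (r1.1.symm.trans h4)
        rw [if_pos (Or.inl r1), if_pos r1, if_neg r2]
      · by_cases r2 : z = c ∧ u = d
        · rw [if_pos (Or.inr ⟨r2.2, r2.1⟩), if_neg r1, if_pos r2]
        · rw [if_neg r1, if_neg r2, if_neg]
          rintro (h3 | h3)
          · exact r1 h3
          · exact r2 ⟨h3.2, h3.1⟩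
    unfold addE at e3
    rw [q1, q2] at e3
    omega
  · rw [hX]
    have : (univ.filter fun k : ZMod 3 => g k = none) = {2} := by
      ext k
      rw [mem_filter, mem_singleton]
      constructor
      · rintro ⟨-, h3⟩
        rcases hk k with rfl | rfl | rfl
        · rw [g0] at h3
          exact absurd h3 (by simp)
        · rw [g1] at h3
          exact absurd h3 (by simp)
        · rfl
      · rintro rfl
        exact ⟨mem_univ _, g2⟩
    rw [this, card_singleton]
  · intro u hu
    rw [IN2_cnt' u a c K1 K2 hne, hvu u hu]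
    have e1 : (univ.filter fun k : ZMod 3 => g k = some u).card =
        (if u = b then 1 else 0) + (if u = d then 1 else 0) := by
      rw [Finset.card_filter]
      have e2 : ∀ k : ZMod 3, (if g k = some u then 1 else 0) =
          (if k = 0 then (if u = b then 1 else 0) else 0) +
          (if k = 1 then (if u = d then 1 else 0) else 0) := by
        intro k
        have h01 : (0 : ZMod 3) ≠ 1 := by decide
        have h10 : (1 : ZMod 3) ≠ 0 := by decide
        have h20 : (2 : ZMod 3) ≠ 0 := by decide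
        have h21 : (2 : ZMod 3) ≠ 1 := by decide
        rcases hk k with rfl | rfl | rfl
        · rw [g0, if_pos rfl, if_neg h01, add_zero]
          simp [eq_comm]
        · rw [g1, if_neg h10, if_pos rfl, zero_add]
          simp [eq_comm]
        · rw [g2, if_neg h20, if_neg h21]
          simp
      rw [Finset.sum_congr rfl fun k _ => e2 k, Finset.sum_add_distrib]
      simp
    rw [e1]
    omega

theorem IN2_symm (w : V → V → ℕ) (a b : V) : addE w a b = addE w b a := by
  funext u z
  unfold addE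
  congr 1
  by_cases h : (u = a ∧ z = b) ∨ (u = b ∧ z = a)
  · rw [if_pos h, if_pos h.symm]
  · rw [if_neg h, if_neg fun h' => h h'.symm]

theorem IN2_comm (w : V → V → ℕ) (a b c d : V) :
    addE (addE w a b) c d = addE (addE w c d) a b := by
  funext u z
  unfold addE
  omega

theorem IN2_slots (S : Finset V) (X : V → ℕ) (w : V → V → ℕ) (a b c d : V)
    (ha : a ∈ S) (hb : b ∈ S) (hc : c ∈ S) (hd : d ∈ S) (hab : a ≠ b) (hcd : c ≠ d)
    (h : V → ZMod 3 → Option V) (φ : V → ℝ) (hS : Static S X (addE (addE w a b) c d) h φ) :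
    ∃ (a' b' c' d' : V) (k1 k2 : ZMod 3), ((a' = a ∧ b' = b) ∨ (a' = b ∧ b' = a)) ∧
      ((c' = c ∧ d' = d) ∨ (c' = d ∧ d' = c)) ∧ h a' k1 = some b' ∧ h c' k2 = some d' ∧
      (a', k1) ≠ (c', k2) := by
  have hpos : ∀ a b : V, 0 < (univ.filter fun k => h a k = some b).card +
      (univ.filter fun k => h b k = some a).card → ∃ (a' b' : V) (k : ZMod 3),
      ((a' = a ∧ b' = b) ∨ (a' = b ∧ b' = a)) ∧ h a' k = some b' := by
    intro a b hp
    rcases Nat.eq_zero_or_pos (univ.filter fun k => h a k = some b).card with h0 | h0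
    · have h1 : 0 < (univ.filter fun k => h b k = some a).card := by omega
      obtain ⟨k, hk⟩ := Finset.card_pos.1 h1
      exact ⟨b, a, k, Or.inr ⟨rfl, rfl⟩, (mem_filter.1 hk).2⟩
    · obtain ⟨k, hk⟩ := Finset.card_pos.1 h0
      exact ⟨a, b, k, Or.inl ⟨rfl, rfl⟩, (mem_filter.1 hk).2⟩
  have hwab : 1 ≤ addE (addE w a b) c d a b := by
    unfold addE
    rw [if_pos (Or.inl ⟨rfl, rfl⟩)]
    omega
  have hwcd : 1 ≤ addE (addE w a b) c d c d := by
    unfold addE
    have : ((c = c ∧ d = d) ∨ (c = d ∧ d = c)) := Or.inl ⟨rfl, rfl⟩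
    rw [if_pos this]
    omega
  have cab := hS.cw a ha b hb hab
  have ccd := hS.cw c hc d hd hcd
  obtain ⟨a', b', k1, hab', h1⟩ := hpos a b (by omega)
  by_cases hcase : (c = a ∧ d = b) ∨ (c = b ∧ d = a)
  · have h2 : 2 ≤ (univ.filter fun k => h a' k = some b').card +
        (univ.filter fun k => h b' k = some a').card := by
      have h3 : 2 ≤ (univ.filter fun k => h a k = some b).card +
        (univ.filter fun k => h b k = some a).card := by
        rw [cab]
        unfold addE
        rw [if_pos (Or.inl ⟨rfl, rfl⟩), if_pos]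
        · omega
        · rcases hcase with ⟨rfl, rfl⟩ | ⟨rfl, rfl⟩
          · exact Or.inl ⟨rfl, rfl⟩
          · exact Or.inr ⟨rfl, rfl⟩
      rcases hab' with ⟨rfl, rfl⟩ | ⟨rfl, rfl⟩
      · exact h3
      · omega
    have hne' : a' ≠ b' := by
      rcases hab' with ⟨rfl, rfl⟩ | ⟨rfl, rfl⟩
      · exact hab
      · exact hab.symm
    have hcd1 : (a' = c ∧ b' = d) ∨ (a' = d ∧ b' = c) := by
      rcases hab' with ⟨rfl, rfl⟩ | ⟨rfl, rfl⟩
      · rcases hcase with ⟨rfl, rfl⟩ | ⟨rfl, rfl⟩
        · exact Or.inl ⟨rfl, rfl⟩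
        · exact Or.inr ⟨rfl, rfl⟩
      · rcases hcase with ⟨rfl, rfl⟩ | ⟨rfl, rfl⟩
        · exact Or.inr ⟨rfl, rfl⟩
        · exact Or.inl ⟨rfl, rfl⟩
    rcases Nat.eq_zero_or_pos (univ.filter fun k => h b' k = some a').card with h0 | h0
    · have h3 : 1 < (univ.filter fun k => h a' k = some b').card := by omega
      obtain ⟨k2, hk2, hk2'⟩ := Finset.exists_mem_ne h3 k1
      refine ⟨a', b', a', b', k1, k2, hab', hcd1, h1, (mem_filter.1 hk2).2, ?_⟩
      intro h4
      exact hk2' (Prod.mk.inj h4).2.symm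
    · obtain ⟨k2, hk2⟩ := Finset.card_pos.1 h0
      refine ⟨a', b', b', a', k1, k2, hab', ?_, h1, (mem_filter.1 hk2).2, ?_⟩
      · rcases hcd1 with ⟨h4, h5⟩ | ⟨h4, h5⟩
        · exact Or.inr ⟨h5, h4⟩
        · exact Or.inl ⟨h5, h4⟩
      · intro h4
        exact hne' (Prod.mk.inj h4).1
  · obtain ⟨c', d', k2, hcd', h2⟩ := hpos c d (by omega)
    refine ⟨a', b', c', d', k1, k2, hab', hcd', h1, h2, ?_⟩
    intro h3
    obtain ⟨h4, h5⟩ := Prod.mk.inj h3
    rw [h4, h5, h2] at h1
    have h6 : d' = b' := Option.some.inj h1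
    apply hcase
    rcases hab' with ⟨h7, h8⟩ | ⟨h7, h8⟩
    · rcases hcd' with ⟨h9, h10⟩ | ⟨h9, h10⟩
      · left
        exact ⟨by rw [← h9, ← h4, h7], by rw [← h10, h6, h8]⟩
      · right
        exact ⟨by rw [← h10, h6, h8], by rw [← h9, ← h4, h7]⟩
    · rcases hcd' with ⟨h9, h10⟩ | ⟨h9, h10⟩
      · right
        exact ⟨by rw [← h9, ← h4, h7], by rw [← h10, h6, h8]⟩
      · left
        exact ⟨by rw [← h10, h6, h8], by rw [← h9, ← h4, h7]⟩

theorem IN2_aux (hGEN : GEN_stmt) (hDIS : DIS_stmt) (hINS : INS_stmt) (S : Finset V) (X : V → ℕ)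
    (w : V → V → ℕ) (v a b c d : V) (hv : v ∉ S) (hw : Sy w) (ha : a ∈ S) (hb : b ∈ S) (hc : c ∈ S)
    (hd : d ∈ S) (hab : a ≠ b) (hcd : c ≠ d) (hX : X v = 1)
    (hvu : ∀ u ∈ S, w v u = (if u = a then 1 else 0) + (if u = b then 1 else 0) +
      (if u = c then 1 else 0) + (if u = d then 1 else 0))
    (h : V → ZMod 3 → Option V) (φ : V → ℝ) (hS : Static S X (addE (addE w a b) c d) h φ)
    (k1 k2 : ZMod 3) (h1 : h a k1 = some b) (h2 : h c k2 = some d)
    (hne : (a, k1) ≠ (c, k2)) : St (insert v S) X w := by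
  obtain ⟨K1, rfl⟩ := ZMod.intCast_surjective k1
  obtain ⟨K2, rfl⟩ := ZMod.intCast_surjective k2
  set D : ℝ := (φ c + K2) - (φ a + K1) with hD
  set m : ℤ := ⌊D / 3⌋ with hm
  have m1 : (m : ℝ) ≤ D / 3 := Int.floor_le _
  have m2 : D / 3 < m + 1 := Int.lt_floor_add_one _
  have hne0 : D - 3 * m ≠ 0 := by
    intro h0
    by_cases hac : a = c
    · subst hac
      apply hne
      have h3 : ((K2 : ℝ) - K1) = 3 * m := by
        rw [hD] at h0
        linarith
      have h4 : K2 - K1 = 3 * m := by exact_mod_cast h3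
      have h5 : ((K2 : ℤ) : ZMod 3) = ((K1 : ℤ) : ZMod 3) := by
        have h6 : K2 = K1 + 3 * m := by omega
        rw [h6]
        push_cast
        have : (3 : ZMod 3) = 0 := by decide
        rw [this, zero_mul, add_zero]
      rw [h5]
    · refine hS.dist c hc a ha (Ne.symm hac) (K1 - K2 + 3 * m) ?_
      push_cast
      rw [hD] at h0
      linarith
  have hpos : 0 < D - 3 * m := lt_of_le_of_ne (by linarith) (Ne.symm hne0)
  by_cases hcase : 1 < D - 3 * m
  · exact IN2_core hGEN hDIS hINS S X w v a b c d hv hw ha hb hc hd hab hcd hX hvu h φ hS K1 K2 m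
      h1 h2 hne hcase (by rw [← hD]; linarith)
  · have hle : D - 3 * m ≤ 1 := not_lt.1 hcase
    rw [IN2_comm] at hS
    refine IN2_core hGEN hDIS hINS S X w v c d a b hv hw hc hd ha hb hcd hab hX ?_ h φ hS K2 K1
      (-m - 1) h2 h1 (Ne.symm hne) ?_ ?_
    · intro u hu
      rw [hvu u hu]
      omega
    · push_cast
      rw [hD] at hle
      linarith
    · push_cast
      rw [hD] at hpos
      linarith

theorem IN2 (hGEN : GEN_stmt) (hDIS : DIS_stmt) (hINS : INS_stmt) : IN2_stmt := by
  intro V _ S X w v a b c d hv hw ha hb hc hd hab hcd hX hvu hSt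
  obtain ⟨h, φ, hS⟩ := hSt
  obtain ⟨a', b', c', d', k1, k2, e1, e2, h1, h2, hne⟩ :=
    IN2_slots S X w a b c d ha hb hc hd hab hcd h φ hS
  rcases e1 with ⟨rfl, rfl⟩ | ⟨rfl, rfl⟩
  · rcases e2 with ⟨rfl, rfl⟩ | ⟨rfl, rfl⟩
    · exact IN2_aux hGEN hDIS hINS S X w v a' b' c' d' hv hw ha hb hc hd hab hcd hX hvu h φ hS k1 k2
        h1 h2 hne
    · rw [IN2_symm _ d' c'] at hS
      exact IN2_aux hGEN hDIS hINS S X w v a' b' c' d' hv hw ha hb hd hc hab hcd.symm hX
        (fun u hu => by rw [hvu u hu]; omega) h φ hS k1 k2 h1 h2 hne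
  · rw [IN2_symm w b' a'] at hS
    rcases e2 with ⟨rfl, rfl⟩ | ⟨rfl, rfl⟩
    · exact IN2_aux hGEN hDIS hINS S X w v a' b' c' d' hv hw hb ha hc hd hab.symm hcd hX
        (fun u hu => by rw [hvu u hu]; omega) h φ hS k1 k2 h1 h2 hne
    · rw [IN2_symm _ d' c'] at hS
      exact IN2_aux hGEN hDIS hINS S X w v a' b' c' d' hv hw hb ha hd hc hab.symm hcd.symm hX
        (fun u hu => by rw [hvu u hu]; omega) h φ hS k1 k2 h1 h2 hne

end

end Pool.Agent.KU
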